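import Pool.Agent.Q106.PK.Stm

set_option autoImplicit false

/-!
Project PK of helper106, job CATI.
-/

namespace Pool.Agent.Q106.PK

theorem cati_asymm {a b : ℤ × ℤ} (h : lx a b) (h' : lx b a) : False := by
  unfold lx at h h'
  omega

theorem cati_irrefl {a : ℤ × ℤ} (h : lx a a) : False := cati_asymm h h

theorem cati_sub {P Q P' Q' : Finset (ℤ × ℤ)} (hu : P ∪ Q = P' ∪ Q') (hc : P.card = P'.card)
    (h1 : ∀ a ∈ P, ∀ b ∈ Q, lx a b) (h2 : ∀ a ∈ P', ∀ b ∈ Q', lx a b) : P = P' := by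
  by_contra hne
  have hx : ∃ x ∈ P, x ∉ P' := by
    by_contra hno
    push Not at hno
    exact hne (Finset.eq_of_subset_of_card_le hno hc.ge)
  have hy : ∃ y ∈ P', y ∉ P := by
    by_contra hno
    push Not at hno
    exact hne (Finset.eq_of_subset_of_card_le hno hc.le).symm
  obtain ⟨x, hxP, hxP'⟩ := hx
  obtain ⟨y, hyP', hyP⟩ := hy
  have hxQ' : x ∈ Q' := by
    have : x ∈ P' ∪ Q' := by rw [← hu]; exact Finset.mem_union_left _ hxP
    exact (Finset.mem_union.1 this).resolve_left hxP'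
  have hyQ : y ∈ Q := by
    have : y ∈ P ∪ Q := by rw [hu]; exact Finset.mem_union_left _ hyP'
    exact (Finset.mem_union.1 this).resolve_left hyP
  exact cati_asymm (h1 x hxP y hyQ) (h2 y hyP' x hxQ')

theorem cati_right {P Q : Finset (ℤ × ℤ)} (h1 : ∀ a ∈ P, ∀ b ∈ Q, lx a b) : Q = (P ∪ Q) \ P := by
  rw [Finset.union_sdiff_left]
  symm
  apply Finset.sdiff_eq_self_of_disjoint
  rw [Finset.disjoint_left]
  intro a ha hb
  exact cati_irrefl (h1 a hb a ha)

theorem t_CATI : S_CATI := by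
  intro P Q P' Q' hu hc h1 h2
  have h := cati_sub hu hc h1 h2
  refine ⟨h, ?_⟩
  rw [cati_right h1, cati_right h2, hu, h]

end Pool.Agent.Q106.PK
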