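import Pool.Agent.Q160.AR_DP

set_option autoImplicit false

open FirstOrder FirstOrder.Language

namespace Pool.Agent.Q164.AR

open Q201.AR

/-- the relation symbol -/
def RS : LR.Relations 2 := ⟨0, rfl⟩

theorem t_DS : S_DS := by
  intro hDC k r j
  obtain ⟨D, hD⟩ := hDC Q160.AR.DP.t_DP k r (k + j) (by have := j.2; omega)
  let D' : LR.Formula (Fin 1 ⊕ Unit) := D.relabel (![Sum.inr (), Sum.inl 0])
  let E : LR.Formula (Fin 1 ⊕ Unit) := RS.formula₂ (Term.var (Sum.inr ())) (Term.var (Sum.inr ()))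
  refine ⟨(D' ⊓ E).iExs Unit, ?_⟩
  intro M _ ι code S hc v
  rw [Formula.realize_iExs]
  have key : ∀ y : Unit → M, (D' ⊓ E).Realize (Sum.elim v y) ↔
      (∃ t, y () = code (k + j) t ∧ v 0 = code 0 t) ∧ rr (y ()) (y ()) := by
    intro y
    rw [Formula.realize_inf]
    refine and_congr ?_ ?_
    · simp only [D', Formula.realize_relabel]
      rw [hD M ι code S hc]
      simp
    · simp only [E, Formula.realize_rel₂]
      exact Iff.rfl
  simp only [key]
  constructor
  · rintro ⟨y, ⟨t, h1, h2⟩, h3⟩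
    refine ⟨t, h2, ?_⟩
    rw [hc.rel] at h3
    have hj := j.2
    rcases h3 with ⟨i, t', hi, e1, e2⟩ | ⟨i, t', l, hi, _, e1, e2⟩ | ⟨j', t', hs, e1, _⟩
    · have := (hc.good.cinj i (i + 1) t' t' (by omega) hi (e1.symm.trans e2)).1
      omega
    · exact absurd (e2.symm.trans e1) (hc.good.disj i t' (t' l) hi)
    · have hj' := j'.2
      obtain ⟨a, b⟩ := hc.good.cinj (k + j) (k + j') t t' (by omega) (by omega)
        (h1.symm.trans e1)
      have : j = j' := Fin.ext (by omega)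
      rw [this, b]
      exact hs
  · rintro ⟨t, h1, h2⟩
    refine ⟨fun _ => code (k + j) t, ⟨t, rfl, h1⟩, ?_⟩
    rw [hc.rel]
    exact Or.inr (Or.inr ⟨j, t, h2, rfl, rfl⟩)

end Pool.Agent.Q164.AR
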