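import Pool.Agent.Q201.AR.Stm3
import Pool.Agent.Helper227.EN.Alg

set_option autoImplicit false

/-!
Project AR of helper201, job STDPA: the standard model is a model of `PA`.
-/

open FirstOrder FirstOrder.Language Pool.Agent.Helper227.EN

namespace Pool.Agent.Q164.AR

open Q201.AR

theorem std_minus : @Theory.Model LA ℕ stdStr PAminus := by
  let i : LA.Structure ℕ := stdStr
  change ℕ ⊨ PAminus
  simp only [PAminus, axAddAssoc, axAddComm, axMulAssoc, axMulComm, axDistrib, axAddZero, axMulZero, axMulOne, axLtTrans, axLtIrrefl, axLtTotal, axAddLt, axMulLt, axDiff, axZeroLtOne, axDiscrete, axNonneg, Theory.model_iff, Set.mem_insert_iff, Set.mem_singleton_iff,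
    forall_eq_or_imp, forall_eq, Sentence.Realize, Formula.Realize, BoundedFormula.realize_all,
    BoundedFormula.realize_bdEqual, BoundedFormula.realize_imp, BoundedFormula.realize_not,
    BoundedFormula.realize_sup, BoundedFormula.realize_ex, ea_t0, ea_t1, ea_tadd, ea_tmul, ea_flt,
    Term.realize_var, Sum.elim_inr]
  refine ⟨fun x y z => ?_, fun x y => ?_, fun x y z => ?_, fun x y => ?_, fun x y z => ?_,
    fun x => ?_, fun x => ?_, fun x => ?_, fun x y z h1 h2 => ?_, fun x h => ?_, fun x y => ?_,
    fun x y z h => ?_, fun x y z h h' => ?_, fun x y h => ?_, ?_, fun x h => ?_, fun x => ?_⟩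
  · exact Nat.add_assoc x y z
  · exact Nat.add_comm x y
  · exact Nat.mul_assoc x y z
  · exact Nat.mul_comm x y
  · exact Nat.mul_add x y z
  · exact Nat.add_zero x
  · exact Nat.mul_zero x
  · exact Nat.mul_one x
  · exact Nat.lt_trans (n := x) (m := y) (k := z) h1 h2
  · exact Nat.lt_irrefl x h
  · exact Nat.lt_trichotomy x y
  · exact Nat.add_lt_add_right (n := x) (m := y) h z
  · exact Nat.mul_lt_mul_of_pos_right (n := x) (m := y) h' h
  · have h' : x < y := h
    exact ⟨y - x, Nat.add_sub_of_le h'.le⟩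
  · exact Nat.zero_lt_one
  · have h' : 0 < x := h
    exact Nat.lt_or_eq_of_le (n := 1) (m := x) h'
  · have : 0 < x ∨ 0 = x := by omega
    exact this

theorem t_STDPA : S_STDPA := by
  let i : LA.Structure ℕ := stdStr
  change ℕ ⊨ PA
  rw [Theory.model_iff]
  intro σ hσ
  rcases hσ with hσ | ⟨n, φ, rfl⟩
  · exact (Theory.model_iff _).1 std_minus σ hσ
  · rw [realize_indAx φ (0 : ℕ) (1 : ℕ) rfl rfl]
    intro y h0 hs x
    induction x with
    | zero => exact h0
    | succ x ih => exact hs x ih

end Pool.Agent.Q164.AR
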