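import Pool.Agent.Q127.KI.Stm2

set_option autoImplicit false

namespace Pool.Agent.Q164.KI2

open Filter Topology Pool.Agent.Q127.KI

lemma cstep (b : ℕ → ℝ) (hb : ∀ n, |b n| ≤ 1) (c : ℝ) (n s : ℕ) :
    |(∑ j ∈ Finset.range (n + s), b j - ((n + s : ℕ) : ℝ) * c) -
      (∑ j ∈ Finset.range n, b j - n * c)| ≤ s * (1 + |c|) := by
  induction s with
  | zero => simp
  | succ s ih =>
    have e : (∑ j ∈ Finset.range (n + (s + 1)), b j - ((n + (s + 1) : ℕ) : ℝ) * c) -
        (∑ j ∈ Finset.range n, b j - n * c) =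
        ((∑ j ∈ Finset.range (n + s), b j - ((n + s : ℕ) : ℝ) * c) -
          (∑ j ∈ Finset.range n, b j - n * c)) + (b (n + s) - c) := by
      rw [← add_assoc, Finset.sum_range_succ]
      push_cast
      ring
    rw [e]
    have h1 : |b (n + s) - c| ≤ 1 + |c| := by
      have h2 := hb (n + s)
      rw [abs_le] at h2 ⊢
      have h3 := le_abs_self c
      have h4 := neg_abs_le c
      constructor <;> linarith [h2.1, h2.2]
    have h5 := abs_add_le ((∑ j ∈ Finset.range (n + s), b j - ((n + s : ℕ) : ℝ) * c) -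
          (∑ j ∈ Finset.range n, b j - n * c)) (b (n + s) - c)
    have h6 : (((s + 1 : ℕ) : ℝ)) * (1 + |c|) = s * (1 + |c|) + (1 + |c|) := by
      push_cast
      ring
    rw [h6]
    linarith

lemma cwin (b : ℕ → ℝ) (c ε : ℝ) (n0 J : ℕ)
    (h : ∀ j, J ≤ j → |∑ i ∈ Finset.range n0, b (j + i) - n0 * c| ≤ ε * n0) (q : ℕ) :
    |(∑ j ∈ Finset.range (J + q * n0), b j - ((J + q * n0 : ℕ) : ℝ) * c) -
      (∑ j ∈ Finset.range J, b j - J * c)| ≤ q * (ε * n0) := by
  induction q with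
  | zero => simp
  | succ q ih =>
    have e : (∑ j ∈ Finset.range (J + (q + 1) * n0), b j - ((J + (q + 1) * n0 : ℕ) : ℝ) * c) -
        (∑ j ∈ Finset.range J, b j - J * c) =
        ((∑ j ∈ Finset.range (J + q * n0), b j - ((J + q * n0 : ℕ) : ℝ) * c) -
          (∑ j ∈ Finset.range J, b j - J * c)) +
        (∑ i ∈ Finset.range n0, b (J + q * n0 + i) - n0 * c) := by
      have h1 : J + (q + 1) * n0 = (J + q * n0) + n0 := by ring
      rw [h1, Finset.sum_range_add]
      push_cast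
      ring
    rw [e]
    have h2 := h (J + q * n0) (by omega)
    have h5 := abs_add_le ((∑ j ∈ Finset.range (J + q * n0), b j - ((J + q * n0 : ℕ) : ℝ) * c) -
          (∑ j ∈ Finset.range J, b j - J * c))
        (∑ i ∈ Finset.range n0, b (J + q * n0 + i) - n0 * c)
    have h6 : (((q + 1 : ℕ) : ℝ)) * (ε * n0) = q * (ε * n0) + ε * n0 := by
      push_cast
      ring
    rw [h6]
    linarith

lemma cave (b : ℕ → ℝ) (hb : ∀ n, |b n| ≤ 1) (c ε : ℝ) (hε : 0 < ε) (n0 J : ℕ) (hn0 : 0 < n0)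
    (h : ∀ j, J ≤ j → |∑ i ∈ Finset.range n0, b (j + i) - n0 * c| ≤ ε * n0) :
    ∀ᶠ n : ℕ in atTop, |(∑ j ∈ Finset.range n, b j) / (n : ℝ) - c| ≤ 2 * ε := by
  have hT : Tendsto (fun n : ℕ => (((J + n0 : ℕ) : ℝ) * (1 + |c|)) / (n : ℝ)) atTop (𝓝 0) :=
    tendsto_const_div_atTop_nhds_zero_nat _
  filter_upwards [hT.eventually (gt_mem_nhds hε), eventually_ge_atTop (J + 1)] with n h1 hn
  have hn0' : (0 : ℝ) < n := by exact_mod_cast (by omega : 0 < n)
  obtain ⟨q, s, hs, hqs⟩ : ∃ q s : ℕ, s < n0 ∧ n = (J + q * n0) + s := by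
    refine ⟨(n - J) / n0, (n - J) % n0, Nat.mod_lt _ hn0, ?_⟩
    have h2 := Nat.div_add_mod (n - J) n0
    have h3 : (n - J) / n0 * n0 = n0 * ((n - J) / n0) := mul_comm _ _
    omega
  have k1 := cwin b c ε n0 J h q
  have k2 := cstep b hb c (J + q * n0) s
  have k3 := cstep b hb c 0 J
  rw [← hqs] at k2
  simp only [zero_add, Finset.range_zero, Finset.sum_empty, Nat.cast_zero, zero_mul, sub_zero] at k3
  have hqn : (q : ℝ) * n0 ≤ n := by
    have : q * n0 ≤ n := by omega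
    exact_mod_cast this
  have hs1 : (s : ℝ) ≤ n0 := by exact_mod_cast hs.le
  have hc : 0 ≤ |c| := abs_nonneg c
  have k4 : |∑ j ∈ Finset.range n, b j - n * c| ≤ ((J + n0 : ℕ) : ℝ) * (1 + |c|) + ε * n := by
    have e1 := abs_add_le (∑ j ∈ Finset.range n, b j - n * c -
      (∑ j ∈ Finset.range (J + q * n0), b j - ((J + q * n0 : ℕ) : ℝ) * c))
      ((∑ j ∈ Finset.range (J + q * n0), b j - ((J + q * n0 : ℕ) : ℝ) * c) -
        (∑ j ∈ Finset.range J, b j - J * c) + (∑ j ∈ Finset.range J, b j - J * c))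
    have e2 := abs_add_le ((∑ j ∈ Finset.range (J + q * n0), b j - ((J + q * n0 : ℕ) : ℝ) * c) -
        (∑ j ∈ Finset.range J, b j - J * c)) (∑ j ∈ Finset.range J, b j - J * c)
    have e3 : (∑ j ∈ Finset.range n, b j - n * c -
      (∑ j ∈ Finset.range (J + q * n0), b j - ((J + q * n0 : ℕ) : ℝ) * c)) +
      ((∑ j ∈ Finset.range (J + q * n0), b j - ((J + q * n0 : ℕ) : ℝ) * c) -
        (∑ j ∈ Finset.range J, b j - J * c) + (∑ j ∈ Finset.range J, b j - J * c)) =
        ∑ j ∈ Finset.range n, b j - n * c := by ring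
    rw [e3] at e1
    have e4 : (s : ℝ) * (1 + |c|) ≤ n0 * (1 + |c|) :=
      mul_le_mul_of_nonneg_right hs1 (by linarith)
    have e5 : (q : ℝ) * (ε * n0) ≤ ε * n := by
      calc (q : ℝ) * (ε * n0) = ε * (q * n0) := by ring
        _ ≤ ε * n := mul_le_mul_of_nonneg_left hqn hε.le
    have e6 : ((J + n0 : ℕ) : ℝ) * (1 + |c|) = J * (1 + |c|) + n0 * (1 + |c|) := by
      push_cast
      ring
    rw [e6]
    linarith
  have k5 : (∑ j ∈ Finset.range n, b j) / (n : ℝ) - c =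
      (∑ j ∈ Finset.range n, b j - n * c) / n := by
    field_simp
  rw [k5, abs_div, abs_of_pos hn0', div_le_iff₀ hn0']
  have k6 : ((J + n0 : ℕ) : ℝ) * (1 + |c|) < ε * n := by
    rwa [div_lt_iff₀ hn0'] at h1
  linarith

theorem cnv : S_cnv := by
  intro b hb h
  have hC : CauchySeq (fun n : ℕ => (∑ j ∈ Finset.range n, b j) / (n : ℝ)) := by
    rw [Metric.cauchySeq_iff']
    intro ε hε
    obtain ⟨n0, c, J, hn0, hJ⟩ := h (ε / 5) (by positivity)
    obtain ⟨N, hN⟩ := eventually_atTop.1 (cave b hb c (ε / 5) (by positivity) n0 J hn0 hJ)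
    refine ⟨N, fun n hn => ?_⟩
    rw [Real.dist_eq]
    have h1 := hN n hn
    have h2 := hN N le_rfl
    rw [abs_le] at h1 h2
    rw [abs_lt]
    constructor <;> linarith [h1.1, h1.2, h2.1, h2.2]
  exact cauchySeq_tendsto_of_complete hC

end Pool.Agent.Q164.KI2
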