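import Mathlib

/-!
# Small matroids given by bit masks
-/

set_option autoImplicit false

namespace Pool.Agent.Q164.Mask

open Set

/-- The number of ones among the first `n` binary digits of `m`. -/
def pc : ℕ → ℕ → ℕ
  | 0, _ => 0
  | n + 1, m => m % 2 + pc n (m / 2)

theorem pc_eq_sum (n m : ℕ) : pc n m = ∑ i : Fin n, (m.testBit i).toNat := by
  induction n generalizing m with
  | zero => simp [pc]
  | succ n ih =>
    rw [pc, ih, Fin.sum_univ_succ]
    congr 1
    · simp only [Fin.val_zero, Nat.testBit_zero]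
      rcases Nat.mod_two_eq_zero_or_one m with h | h <;> simp [h]
    · refine Finset.sum_congr rfl fun i _ => ?_
      rw [Fin.val_succ, Nat.testBit_succ]

open Classical in
/-- The mask of a set. -/
noncomputable def mk {n : ℕ} (s : Set (Fin n)) : ℕ := Nat.ofBits (fun i => decide (i ∈ s))

/-- The set of a mask. -/
def st (n m : ℕ) : Set (Fin n) := {i | m.testBit i = true}

variable {n : ℕ}

theorem testBit_mk (s : Set (Fin n)) (i : Fin n) : (mk s).testBit i = true ↔ i ∈ s := by
  classical
  rw [mk, Nat.testBit_ofBits_lt _ _ i.2]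
  simp

theorem testBit_mk_ge (s : Set (Fin n)) (i : ℕ) (h : n ≤ i) : (mk s).testBit i = false := by
  classical
  rw [mk, Nat.testBit_ofBits_ge _ _ h]

theorem mk_lt (s : Set (Fin n)) : mk s < 2 ^ n := by
  classical
  exact Nat.ofBits_lt_two_pow _

theorem st_mk (s : Set (Fin n)) : st n (mk s) = s := by
  ext i
  exact testBit_mk s i

theorem mk_injective : Function.Injective (mk (n := n)) := by
  intro s t h
  rw [← st_mk s, h, st_mk]

theorem mk_st {m : ℕ} (h : m < 2 ^ n) : mk (st n m) = m := by
  apply Nat.eq_of_testBit_eq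
  intro i
  by_cases hi : i < n
  · have := testBit_mk (st n m) ⟨i, hi⟩
    rw [Bool.eq_iff_iff]
    exact this
  · rw [testBit_mk_ge _ _ (not_lt.1 hi), Nat.testBit_lt_two_pow
      (h.trans_le (Nat.pow_le_pow_right (by norm_num) (not_lt.1 hi)))]

theorem eq_of_testBit {a b : ℕ} (ha : ∀ i, n ≤ i → a.testBit i = false)
    (hb : ∀ i, n ≤ i → b.testBit i = false) (h : ∀ i : Fin n, a.testBit i = true ↔ b.testBit i = true) :
    a = b := by
  apply Nat.eq_of_testBit_eq
  intro i
  by_cases hi : i < n
  · rw [Bool.eq_iff_iff]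
    exact h ⟨i, hi⟩
  · rw [ha i (not_lt.1 hi), hb i (not_lt.1 hi)]

theorem mk_union (s t : Set (Fin n)) : mk (s ∪ t) = mk s ||| mk t := by
  refine eq_of_testBit (n := n) (testBit_mk_ge _) ?_ ?_
  · intro i hi
    rw [Nat.testBit_or, testBit_mk_ge _ _ hi, testBit_mk_ge _ _ hi]
    rfl
  · intro i
    rw [testBit_mk, Nat.testBit_or, Bool.or_eq_true, testBit_mk, testBit_mk]
    rfl

theorem mk_inter (s t : Set (Fin n)) : mk (s ∩ t) = mk s &&& mk t := by
  refine eq_of_testBit (n := n) (testBit_mk_ge _) ?_ ?_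
  · intro i hi
    rw [Nat.testBit_and, testBit_mk_ge _ _ hi, testBit_mk_ge _ _ hi]
    rfl
  · intro i
    rw [testBit_mk, Nat.testBit_and, Bool.and_eq_true, testBit_mk, testBit_mk]
    rfl

theorem mk_sdiff (s t : Set (Fin n)) : mk (s \ t) = mk s ^^^ (mk s &&& mk t) := by
  refine eq_of_testBit (n := n) (testBit_mk_ge _) ?_ ?_
  · intro i hi
    rw [Nat.testBit_xor, Nat.testBit_and, testBit_mk_ge _ _ hi, testBit_mk_ge _ _ hi]
    rfl
  · intro i
    rw [testBit_mk, Nat.testBit_xor, Nat.testBit_and]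
    have h1 := testBit_mk s i
    have h2 := testBit_mk t i
    rw [Set.mem_sdiff, ← h1, ← h2]
    cases (mk s).testBit i <;> cases (mk t).testBit i <;> simp

theorem mk_subset {s t : Set (Fin n)} : s ⊆ t ↔ mk s &&& mk t = mk s := by
  rw [← mk_inter, mk_injective.eq_iff, Set.inter_eq_left]

theorem mk_insert (s : Set (Fin n)) (e : Fin n) : mk (insert e s) = mk s ||| 2 ^ (e : ℕ) := by
  refine eq_of_testBit (n := n) (testBit_mk_ge _) ?_ ?_
  · intro i hi
    rw [Nat.testBit_or, testBit_mk_ge _ _ hi, Nat.testBit_two_pow]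
    have : (e : ℕ) ≠ i := by
      have := e.2
      omega
    simp [this]
  · intro i
    rw [testBit_mk, Nat.testBit_or, Bool.or_eq_true, testBit_mk, Nat.testBit_two_pow,
      Set.mem_insert_iff, decide_eq_true_iff, ← Fin.ext_iff, eq_comm (a := e), or_comm]

theorem pc_mk (s : Set (Fin n)) : pc n (mk s) = s.ncard := by
  classical
  rw [pc_eq_sum, Set.ncard_eq_toFinset_card', Finset.card_eq_sum_ones]
  have h1 : ∀ i : Fin n, ((mk s).testBit i).toNat = if i ∈ s then 1 else 0 := by
    intro i
    by_cases h : i ∈ s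
    · rw [if_pos h, (testBit_mk s i).2 h]
      rfl
    · rw [if_neg h]
      have : (mk s).testBit i = false := by
        rw [← Bool.not_eq_true, testBit_mk]
        exact h
      rw [this]
      rfl
  rw [Finset.sum_congr rfl fun i _ => h1 i, ← Finset.sum_filter]
  refine Finset.sum_congr ?_ fun _ _ => rfl
  ext i
  simp

theorem mk_empty : mk (∅ : Set (Fin n)) = 0 := by
  apply Nat.eq_of_testBit_eq
  intro i
  by_cases hi : i < n
  · rw [Nat.zero_testBit, ← Bool.not_eq_true, testBit_mk (∅ : Set (Fin n)) ⟨i, hi⟩]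
    simp
  · rw [testBit_mk_ge _ _ (not_lt.1 hi), Nat.zero_testBit]

/-- The finite check of the independence axioms. -/
structure Good (n : ℕ) (ind : ℕ → Bool) : Prop where
  empty : ind 0 = true
  subset : ∀ a < 2 ^ n, ∀ b < 2 ^ n, a &&& b = a → ind b = true → ind a = true
  aug : ∀ a < 2 ^ n, ∀ b < 2 ^ n, ind a = true → ind b = true → pc n a < pc n b →
    ∃ i < n, b.testBit i = true ∧ a.testBit i = false ∧ ind (a ||| 2 ^ i) = true

/-- The check of the augmentation axiom. -/
def checkAug (n : ℕ) (ind : ℕ → Bool) : Bool :=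
  (List.range (2 ^ n)).all fun a => !(ind a) || (List.range (2 ^ n)).all fun b =>
    !(ind b && decide (pc n a < pc n b)) || (List.range n).any fun i =>
      b.testBit i && !(a.testBit i) && ind (a ||| 2 ^ i)

/-- The check of the hereditary axiom. -/
def checkSub (n : ℕ) (ind : ℕ → Bool) : Bool :=
  (List.range (2 ^ n)).all fun b => !(ind b) || (List.range (2 ^ n)).all fun a =>
    !(decide (a &&& b = a)) || ind a

theorem good_of_check {n : ℕ} {ind : ℕ → Bool} (h0 : ind 0 = true) (h1 : checkSub n ind = true)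
    (h2 : checkAug n ind = true) : Good n ind where
  empty := h0
  subset a ha b hb hab hbi := by
    rw [checkSub, List.all_eq_true] at h1
    have h3 := h1 b (List.mem_range.2 hb)
    rw [hbi, Bool.not_true, Bool.false_or, List.all_eq_true] at h3
    have h4 := h3 a (List.mem_range.2 ha)
    rw [decide_eq_true hab, Bool.not_true, Bool.false_or] at h4
    exact h4
  aug a ha b hb hai hbi hab := by
    rw [checkAug, List.all_eq_true] at h2
    have h3 := h2 a (List.mem_range.2 ha)
    rw [hai, Bool.not_true, Bool.false_or, List.all_eq_true] at h3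
    have h4 := h3 b (List.mem_range.2 hb)
    rw [hbi, decide_eq_true hab, Bool.and_self, Bool.not_true, Bool.false_or,
      List.any_eq_true] at h4
    obtain ⟨i, hi, h5⟩ := h4
    rw [Bool.and_eq_true, Bool.and_eq_true, Bool.not_eq_true'] at h5
    exact ⟨i, List.mem_range.1 hi, h5.1.1, h5.1.2, h5.2⟩

/-- The matroid given by a good mask predicate. -/
noncomputable def matroid {ind : ℕ → Bool} (h : Good n ind) : Matroid (Fin n) :=
  (IndepMatroid.ofFinite (E := Set.univ) Set.finite_univ (fun I => ind (mk I) = true)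
    (by rw [mk_empty]; exact h.empty)
    (fun I J hJ hIJ => h.subset _ (mk_lt I) _ (mk_lt J) (mk_subset.1 hIJ) hJ)
    (fun I J hI hJ hIJ => by
      rw [← pc_mk, ← pc_mk] at hIJ
      obtain ⟨i, hi, h1, h2, h3⟩ := h.aug _ (mk_lt I) _ (mk_lt J) hI hJ hIJ
      refine ⟨⟨i, hi⟩, (testBit_mk J ⟨i, hi⟩).1 h1, ?_, ?_⟩
      · intro h4
        rw [← testBit_mk] at h4
        rw [show ((⟨i, hi⟩ : Fin n) : ℕ) = i from rfl, h2] at h4
        exact absurd h4 (by simp)
      · rw [mk_insert]
        exact h3)
    (fun _ _ => Set.subset_univ _)).matroid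

theorem matroid_E {ind : ℕ → Bool} (h : Good n ind) : (matroid h).E = Set.univ := rfl

theorem matroid_indep {ind : ℕ → Bool} (h : Good n ind) (I : Set (Fin n)) :
    (matroid h).Indep I ↔ ind (mk I) = true := Iff.rfl

/-- Bases of a matroid of known rank. -/
theorem isBase_iff {α : Type*} {M : Matroid α} [M.Finite] (r : ℕ) {I₀ : Set α} (h0 : M.Indep I₀)
    (hc : I₀.ncard = r) (hle : ∀ I, M.Indep I → I.ncard ≤ r) (B : Set α) :
    M.IsBase B ↔ M.Indep B ∧ B.ncard = r := by
  have hcard : ∀ B, M.IsBase B → B.ncard = r := by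
    intro B hB
    obtain ⟨B', hB', hsub⟩ := h0.exists_isBase_superset
    have h1 := hB.ncard_eq_ncard_of_isBase hB'
    have h2 := Set.ncard_le_ncard hsub (M.set_finite B' hB'.subset_ground)
    have h3 := hle B' hB'.indep
    omega
  constructor
  · exact fun hB => ⟨hB.indep, hcard B hB⟩
  · rintro ⟨hB, hBr⟩
    obtain ⟨B', hB', hsub⟩ := hB.exists_isBase_superset
    have h1 := hcard B' hB'
    have h2 : B = B' := Set.eq_of_subset_of_ncard_le hsub (by omega)
      (M.set_finite B' hB'.subset_ground)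
    rw [h2]
    exact hB'

end Pool.Agent.Q164.Mask
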