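import Pool.Agent.Q61.MH.Stm

set_option autoImplicit false

/-!
Project MH of helper61, job SUM12.
-/

open Real

noncomputable section

namespace Pool.Agent.Q164.MH

open Pool.Agent.Q61.MH

theorem bern_neg {q u : ℝ} (h0 : 0 ≤ q) (h1 : q ≤ 1) (hu : -1 < u) (hu1 : u < 1) :
    1 - q * u ≤ (1 + u) ^ (-q) := by
  have h := rpow_one_add_le_one_add_mul_self hu.le h0 h1
  have hp : 0 < (1 + u) ^ q := Real.rpow_pos_of_pos (by linarith) q
  rw [Real.rpow_neg (by linarith)]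
  rw [← one_div, le_div_iff₀ hp]
  rcases le_or_gt (1 - q * u) 0 with hn | hn
  · have := mul_nonneg_of_nonpos_of_nonpos hn (neg_nonpos.2 hp.le)
    nlinarith
  · calc (1 - q * u) * (1 + u) ^ q ≤ (1 - q * u) * (1 + q * u) :=
        mul_le_mul_of_nonneg_left h hn.le
      _ = 1 - (q * u) ^ 2 := by ring
      _ ≤ 1 := by nlinarith [sq_nonneg (q * u)]

theorem bern_up {q u : ℝ} (h0 : 0 ≤ q) (h1 : q ≤ 1) (hu : -1 < u) :
    (1 + u) ^ (-q) ≤ 1 - q + q / (1 + u) := by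
  have hp : 0 < 1 + u := by linarith
  have h := rpow_one_add_le_one_add_mul_self (s := (1 + u)⁻¹ - 1) (p := q)
    (by have := inv_pos.2 hp; linarith) h0 h1
  have e : 1 + ((1 + u)⁻¹ - 1) = (1 + u)⁻¹ := by ring
  rw [e, Real.inv_rpow hp.le, ← Real.rpow_neg hp.le] at h
  refine h.trans (le_of_eq ?_)
  rw [div_eq_mul_inv]
  ring

theorem mid {q u : ℝ} (h0 : 0 ≤ q) (h1 : q ≤ 1) (hu : 0 ≤ u) (hu1 : u < 1) :
    2 * q * u ≤ (1 + u) ^ q - (1 - u) ^ q := by
  let F : ℝ → ℝ := fun v => (1 + v) ^ q - (1 - v) ^ q - 2 * q * v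
  have hd : ∀ v ∈ Set.Icc (0 : ℝ) u, HasDerivAt F
      (q * (1 + v) ^ (q - 1) + q * (1 - v) ^ (q - 1) - 2 * q) v := by
    intro v hv
    have p1 : 1 + v ≠ 0 := by have := hv.1; positivity
    have p2 : 1 - v ≠ 0 := by have := hv.2; intro h; linarith
    have d1 : HasDerivAt (fun v : ℝ => 1 + v) 1 v := by
      simpa using (hasDerivAt_id v).const_add 1
    have d2 : HasDerivAt (fun v : ℝ => 1 - v) (-1) v := by
      simpa using (hasDerivAt_id v).const_sub 1
    have e1 := d1.rpow_const (p := q) (Or.inl p1)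
    have e2 := d2.rpow_const (p := q) (Or.inl p2)
    have e3 := (hasDerivAt_id v).const_mul (2 * q)
    have e4 := (e1.sub e2).sub e3
    have e5 : 1 * q * (1 + v) ^ (q - 1) - -1 * q * (1 - v) ^ (q - 1) - 2 * q * 1 =
        q * (1 + v) ^ (q - 1) + q * (1 - v) ^ (q - 1) - 2 * q := by ring
    rw [e5] at e4
    exact e4
  have hmono : MonotoneOn F (Set.Icc 0 u) := by
    apply monotoneOn_of_deriv_nonneg (convex_Icc 0 u)
    · intro v hv
      exact (hd v hv).continuousAt.continuousWithinAt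
    · intro v hv
      rw [interior_Icc] at hv
      exact (hd v ⟨hv.1.le, hv.2.le⟩).differentiableAt.differentiableWithinAt
    · intro v hv
      rw [interior_Icc] at hv
      rw [(hd v ⟨hv.1.le, hv.2.le⟩).deriv]
      have b1 := bern_neg (q := 1 - q) (u := v) (by linarith) (by linarith)
        (by linarith [hv.1]) (by linarith [hv.2])
      have b2 := bern_neg (q := 1 - q) (u := -v) (by linarith) (by linarith)
        (by linarith [hv.2]) (by linarith [hv.1])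
      have e1 : -(1 - q) = q - 1 := by ring
      rw [e1] at b1 b2
      have e2 : 1 + -v = 1 - v := by ring
      rw [e2] at b2
      have := mul_le_mul_of_nonneg_left (add_le_add b1 b2) h0
      linarith
  have h := hmono (Set.left_mem_Icc.2 hu) (Set.right_mem_Icc.2 hu) hu
  simp only [F] at h
  norm_num at h
  linarith

theorem term {r x : ℝ} (h1 : 1 ≤ r) (h2 : r ≤ 2) (hx : 1 ≤ x) :
    r * (r - 1) / 48 * ((x - 1 / 2) ^ (r - 2) + (x + 1 / 2) ^ (r - 2)) ≤
      r / 24 * ((x + 1 / 2) ^ (r - 1) - (x - 1 / 2) ^ (r - 1)) +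
        r * (r - 1) / 24 * (1 / (4 * x ^ 2 - 1)) := by
  have hx0 : 0 < x := by linarith
  obtain ⟨u, hu⟩ : ∃ u, u = 1 / (2 * x) := ⟨_, rfl⟩
  have hu0 : 0 < u := by rw [hu]; positivity
  have hu1 : u ≤ 1 / 2 := by
    rw [hu, div_le_div_iff₀ (by positivity) (by norm_num)]; linarith
  have ex : x * u = 1 / 2 := by rw [hu]; field_simp
  have e1 : x - 1 / 2 = x * (1 - u) := by rw [mul_sub, ex]; ring
  have e2 : x + 1 / 2 = x * (1 + u) := by rw [mul_add, ex]; ring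
  obtain ⟨a, ha⟩ : ∃ a, a = x ^ (r - 2) := ⟨_, rfl⟩
  have ha0 : 0 < a := by rw [ha]; exact Real.rpow_pos_of_pos hx0 _
  have ha1 : a ≤ 1 := by rw [ha]; exact Real.rpow_le_one_of_one_le_of_nonpos hx (by linarith)
  have m1 : (x - 1 / 2) ^ (r - 2) = a * (1 - u) ^ (r - 2) := by
    rw [e1, Real.mul_rpow hx0.le (by linarith), ha]
  have m2 : (x + 1 / 2) ^ (r - 2) = a * (1 + u) ^ (r - 2) := by
    rw [e2, Real.mul_rpow hx0.le (by linarith), ha]
  have m3 : (x + 1 / 2) ^ (r - 1) - (x - 1 / 2) ^ (r - 1) =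
      x ^ (r - 1) * ((1 + u) ^ (r - 1) - (1 - u) ^ (r - 1)) := by
    rw [e1, e2, Real.mul_rpow hx0.le (by linarith), Real.mul_rpow hx0.le (by linarith)]
    ring
  have b1 := bern_up (q := 2 - r) (u := u) (by linarith) (by linarith) (by linarith)
  have b2 := bern_up (q := 2 - r) (u := -u) (by linarith) (by linarith) (by linarith)
  have e3 : -(2 - r) = r - 2 := by ring
  have e4 : 1 + -u = 1 - u := by ring
  rw [e3] at b1 b2
  rw [e4] at b2
  have hpu : 0 < 1 - u ^ 2 := by nlinarith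
  have hq : 1 / (4 * x ^ 2 - 1) = u ^ 2 / (1 - u ^ 2) := by
    have h3 : 4 * x ^ 2 - 1 ≠ 0 := by nlinarith
    rw [div_eq_div_iff h3 hpu.ne']
    have : u ^ 2 * (4 * x ^ 2) = 1 := by
      have : u ^ 2 * (4 * x ^ 2) = 4 * (x * u) ^ 2 := by ring
      rw [this, ex]; norm_num
    linarith
  have hfr : (2 - r) / (1 + u) + (2 - r) / (1 - u) = 2 * (2 - r) / (1 - u ^ 2) := by
    have h3 : 1 + u ≠ 0 := by linarith
    have h4 : 1 - u ≠ 0 := by linarith
    have h5 : 1 - u ^ 2 ≠ 0 := hpu.ne'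
    field_simp
    ring
  have hsum : (1 - u) ^ (r - 2) + (1 + u) ^ (r - 2) ≤ 2 + 2 * (u ^ 2 / (1 - u ^ 2)) := by
    have h3 : (1 - u) ^ (r - 2) + (1 + u) ^ (r - 2) ≤
        2 * (1 - (2 - r)) + 2 * (2 - r) / (1 - u ^ 2) := by linarith
    refine h3.trans ?_
    have h4 : 2 * (1 - (2 - r)) + 2 * (2 - r) / (1 - u ^ 2) =
        2 + 2 * (2 - r) * (u ^ 2 / (1 - u ^ 2)) := by
      field_simp
      ring
    rw [h4]
    have h5 : 0 ≤ u ^ 2 / (1 - u ^ 2) := by positivity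
    nlinarith
  have hB : (r - 1) * a ≤ (x + 1 / 2) ^ (r - 1) - (x - 1 / 2) ^ (r - 1) := by
    rw [m3]
    have h3 := mid (q := r - 1) (u := u) (by linarith) (by linarith) hu0.le (by linarith)
    have h4 : 0 < x ^ (r - 1) := Real.rpow_pos_of_pos hx0 _
    have h5 := mul_le_mul_of_nonneg_left h3 h4.le
    refine le_trans (le_of_eq ?_) h5
    have h6 : x ^ (r - 1) = a * x := by
      rw [ha, ← Real.rpow_add_one hx0.ne']
      congr 1
      ring
    rw [h6]
    have : a * x * (2 * (r - 1) * u) = 2 * (r - 1) * a * (x * u) := by ring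
    rw [this, ex]
    ring
  rw [m1, m2, hq]
  have hrr : 0 ≤ r * (r - 1) / 48 := by
    have : 0 ≤ r - 1 := by linarith
    positivity
  have hw : 0 ≤ u ^ 2 / (1 - u ^ 2) := by positivity
  have s1 : a * (1 - u) ^ (r - 2) + a * (1 + u) ^ (r - 2) ≤ 2 * a + 2 * (u ^ 2 / (1 - u ^ 2)) := by
    have h3 := mul_le_mul_of_nonneg_left hsum ha0.le
    have h4 := mul_le_mul_of_nonneg_right ha1 hw
    linarith
  have s2 := mul_le_mul_of_nonneg_left s1 hrr
  have s3 := mul_le_mul_of_nonneg_left hB (by linarith : 0 ≤ r / 24)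
  linarith

theorem sum12 (h : S_loc1) : S_sum12 := by
  intro r k h1 h2 _
  have key : ∀ k : ℕ, (((k : ℝ) + 1 / 2) ^ (r + 1) - (1 / 2) ^ (r + 1)) / (r + 1) -
      r / 24 * (((k : ℝ) + 1 / 2) ^ (r - 1) - (1 / 2) ^ (r - 1)) -
      r * (r - 1) / 48 * (1 - 1 / (2 * k + 1)) ≤ S k r := by
    intro k
    induction k with
    | zero =>
      unfold S
      simp
    | succ k ih =>
      have hS : S (k + 1) r = S k r + ((k : ℝ) + 1) ^ r := by
        unfold S
        rw [Finset.sum_range_succ]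
      rw [hS]
      have hk : (0 : ℝ) ≤ k := Nat.cast_nonneg k
      have l1 := h r ((k : ℝ) + 1) (Or.inl ⟨h1, h2⟩) (by linarith)
      have l2 := term (r := r) (x := (k : ℝ) + 1) h1 h2 (by linarith)
      have a1 : (k : ℝ) + 1 - 1 / 2 = k + 1 / 2 := by ring
      rw [a1] at l1 l2
      push_cast
      have a2 : 1 / (4 * ((k : ℝ) + 1) ^ 2 - 1) =
          1 / 2 * (1 / (2 * k + 1) - 1 / (2 * (k + 1) + 1)) := by
        have h3 : (4 * ((k : ℝ) + 1) ^ 2 - 1) = (2 * k + 1) * (2 * (k + 1) + 1) := by ring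
        rw [h3]
        field_simp
        ring
      rw [a2] at l2
      have a3 : (((k : ℝ) + 1 + 1 / 2) ^ (r + 1) - (1 / 2) ^ (r + 1)) / (r + 1) =
          (((k : ℝ) + 1 / 2) ^ (r + 1) - (1 / 2) ^ (r + 1)) / (r + 1) +
          (((k : ℝ) + 1 + 1 / 2) ^ (r + 1) - ((k : ℝ) + 1 / 2) ^ (r + 1)) / (r + 1) := by ring
      rw [a3]
      linarith
  refine le_trans ?_ (key k)
  have hk : (0 : ℝ) ≤ k := Nat.cast_nonneg k
  have e1 : ((1 : ℝ) / 2) ^ (r + 1) = (1 / 2) ^ (r - 1) * (1 / 4) := by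
    have : r + 1 = (r - 1) + 2 := by ring
    rw [this, Real.rpow_add (by norm_num)]
    norm_num
  have hb0 : 0 < ((1 : ℝ) / 2) ^ (r - 1) := Real.rpow_pos_of_pos (by norm_num) _
  have hb1 : ((1 : ℝ) / 2) ^ (r - 1) ≤ 1 :=
    Real.rpow_le_one (by norm_num) (by norm_num) (by linarith)
  obtain ⟨b, hb⟩ : ∃ b, b = ((1 : ℝ) / 2) ^ (r - 1) := ⟨_, rfl⟩
  rw [e1, ← hb]
  rw [← hb] at hb0 hb1
  have hr1 : 0 < r + 1 := by linarith
  -- the constant
  have hc0 : 0 ≤ 1 / (4 * (r + 1)) - r / 24 := by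
    rw [sub_nonneg, div_le_div_iff₀ (by norm_num) (by positivity)]
    nlinarith
  have hc : b * (1 / (4 * (r + 1)) - r / 24) + r * (r - 1) / 48 ≤ 1 / 12 := by
    have h3 := mul_le_mul_of_nonneg_right hb1 hc0
    have h4 : 1 / (4 * (r + 1)) - r / 24 + r * (r - 1) / 48 ≤ 1 / 12 := by
      have h5 : 1 / (4 * (r + 1)) ≤ 1 / 12 + r / 24 - r * (r - 1) / 48 := by
        rw [div_le_iff₀ (by positivity)]
        nlinarith [mul_nonneg (sub_nonneg.2 h1) (sub_nonneg.2 h2),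
          mul_nonneg (mul_nonneg (sub_nonneg.2 h1) (sub_nonneg.2 h2)) (by linarith : 0 ≤ r)]
      linarith
    linarith
  have hd : 0 ≤ r * (r - 1) / 48 * (1 / (2 * (k : ℝ) + 1)) := by
    have : 0 ≤ r - 1 := by linarith
    positivity
  have e2 : (((k : ℝ) + 1 / 2) ^ (r + 1) - b * (1 / 4)) / (r + 1) =
      ((k : ℝ) + 1 / 2) ^ (r + 1) / (r + 1) - b * (1 / (4 * (r + 1))) := by
    field_simp
  rw [e2]
  nlinarith [hc, hd]

end Pool.Agent.Q164.MH
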