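import Mathlib
import Pool.Agent.Q49.MR2.Stm

set_option autoImplicit false

open Module

namespace Q164.MR2_B1

open Q49.MR Q49.MR2

/-- adapted coordinates -/
theorem exists_coord {K V : Type} [Field K] [AddCommGroup V] [Module K V]
    (T : V →ₗ[K] K) (hV : finrank K V = 4) (hT : T ≠ 0) (v0 : V) (hv0 : v0 ≠ 0) (hTv0 : T v0 = 0) :
    ∃ (v1 u1 u2 : V) (x y t : V →ₗ[K] K), T v1 = 1 ∧ T u1 = 0 ∧ T u2 = 0 ∧
      ∀ v, v = T v • v1 + x v • u1 + y v • u2 + t v • v0 := by
  have hfd : FiniteDimensional K V := FiniteDimensional.of_finrank_pos (by omega)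
  have hsurj : Function.Surjective T := LinearMap.surjective hT
  have hker : finrank K (LinearMap.ker T) = 3 := by
    have h1 := LinearMap.finrank_range_add_finrank_ker T
    rw [LinearMap.range_eq_top.2 hsurj, finrank_top, finrank_self, hV] at h1
    omega
  have hex : ∀ (n : ℕ) (f : Fin n → V), n < 3 → ∃ u ∈ LinearMap.ker T,
      u ∉ Submodule.span K (Set.range f) := by
    intro n f hn
    by_contra hcon
    push Not at hcon
    have hle : LinearMap.ker T ≤ Submodule.span K (Set.range f) := hcon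
    have h1 := Submodule.finrank_mono hle
    have h2 : finrank K (Submodule.span K (Set.range f)) ≤ n := by
      have := finrank_range_le_card (R := K) f
      rw [Fintype.card_fin] at this
      exact this
    omega
  have li1 : LinearIndependent K ![v0] := by
    rw [linearIndependent_unique_iff]
    simpa using hv0
  obtain ⟨u2, hu2, hu2'⟩ := hex 1 ![v0] (by norm_num)
  have li2 : LinearIndependent K ![u2, v0] := linearIndependent_finCons.2 ⟨li1, hu2'⟩
  obtain ⟨u1, hu1, hu1'⟩ := hex 2 ![u2, v0] (by norm_num)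
  have li3 : LinearIndependent K ![u1, u2, v0] := linearIndependent_finCons.2 ⟨li2, hu1'⟩
  obtain ⟨v1, hv1⟩ := hsurj 1
  have hv1' : v1 ∉ Submodule.span K (Set.range ![u1, u2, v0]) := by
    intro hmem
    have hle : Submodule.span K (Set.range ![u1, u2, v0]) ≤ LinearMap.ker T := by
      rw [Submodule.span_le]
      rintro _ ⟨i, rfl⟩
      fin_cases i
      · exact hu1
      · exact hu2
      · exact LinearMap.mem_ker.2 hTv0
    have := LinearMap.mem_ker.1 (hle hmem)
    rw [hv1] at this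
    exact one_ne_zero this
  have li4 : LinearIndependent K ![v1, u1, u2, v0] := linearIndependent_finCons.2 ⟨li3, hv1'⟩
  let b := basisOfLinearIndependentOfCardEqFinrank li4 (by simp [hV])
  have hb : ∀ v : V, v = b.coord 0 v • v1 + b.coord 1 v • u1 + b.coord 2 v • u2 +
      b.coord 3 v • v0 := by
    intro v
    have h1 := b.sum_repr v
    rw [Fin.sum_univ_four] at h1
    have h2 : ∀ i, b i = ![v1, u1, u2, v0] i := fun i => by
      simp only [b, coe_basisOfLinearIndependentOfCardEqFinrank]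
    rw [h2, h2, h2, h2] at h1
    exact h1.symm
  have hT0 : ∀ v, T v = b.coord 0 v := by
    intro v
    conv_lhs => rw [hb v]
    rw [map_add, map_add, map_add, map_smul, map_smul, map_smul, map_smul, hv1,
      LinearMap.mem_ker.1 hu1, LinearMap.mem_ker.1 hu2, hTv0]
    simp
  refine ⟨v1, u1, u2, b.coord 1, b.coord 2, b.coord 3, hv1, LinearMap.mem_ker.1 hu1,
    LinearMap.mem_ker.1 hu2, fun v => ?_⟩
  rw [hT0 v]
  exact hb v

/-- the ternary form -/
theorem ternary {K : Type} [Field K] [Finite K] (h2 : (2 : K) = 0) (γ α β δ : K)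
    (hcl : β ≠ 0 → ∃ c : K, γ + α * δ / β ^ 2 = c ^ 2 + c) :
    ∃ h1 h2 h3 y1 y2 y3 z1 z2 z3 : K, ∀ a x y : K,
      γ * a ^ 2 + α * x ^ 2 + β * x * y + δ * y ^ 2 =
        (h1 * a + h2 * x + h3 * y) ^ 2 + (h1 * a + h2 * x + h3 * y) * a +
          (y1 * a + y2 * x + y3 * y) * (z1 * a + z2 * x + z3 * y) := by
  have hchar : CharP K 2 := CharTwo.of_one_ne_zero_of_two_eq_zero one_ne_zero h2
  have hsq : ∀ s : K, ∃ r : K, r ^ 2 = s := by
    intro s
    have := PerfectRing.ofFiniteOfIsReduced 2 K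
    obtain ⟨r, hr⟩ := surjective_frobenius K 2 s
    exact ⟨r, by rw [← hr, frobenius_def]⟩
  by_cases hβ : β = 0
  · obtain ⟨r, hr⟩ := hsq α
    obtain ⟨s, hs⟩ := hsq δ
    refine ⟨0, r, s, 1, 0, 0, γ, r, s, fun a x y => ?_⟩
    subst hβ
    rw [← hr, ← hs]
    linear_combination (-(r * x * s * y) - (r * x + s * y) * a) * h2
  · obtain ⟨c, hc⟩ := hcl hβ
    by_cases hα : α = 0
    · subst hα
      have hγ : γ = c ^ 2 + c := by
        rw [← hc]; simp
      refine ⟨c, 0, 0, 0, 0, 1, 0, β, δ, fun a x y => ?_⟩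
      rw [hγ]
      ring
    · obtain ⟨r, hr⟩ := hsq α
      have hr0 : r ≠ 0 := by
        rintro rfl
        exact hα (by rw [← hr]; ring)
      have hγ : γ = c ^ 2 + c - α * δ / β ^ 2 := by rw [← hc]; ring
      refine ⟨c, r, 0, 1, 0, β / r, α * δ / β ^ 2, r, α * δ / β ^ 2 * (β / r), fun a x y => ?_⟩
      rw [hγ, ← hr]
      have e1 : r ^ 2 * δ / β ^ 2 * (β / r) ^ 2 = δ := by
        field_simp
      have e2 : β / r * r = β := by
        field_simp
      linear_combination (-(r ^ 2 * δ / β ^ 2 * a ^ 2) - c * a * r * x - r * x * a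
        - (β / r) * (r ^ 2 * δ / β ^ 2) * a * y) * h2 - y ^ 2 * e1 - x * y * e2

theorem b1 (h1 : S2_Q4) : S2_B1 := by
  intro K V _ _ _ _ B T h2 hV hT v0 ρ0 hne hT0 hC hg0 hcard
  have hv0 : v0 ≠ 0 := by
    rintro rfl
    rcases hne with h | h
    · exact h rfl
    · simp at hg0
      exact h hg0
  obtain ⟨v1, u1, u2, x, y, t, hv1, hu1, hu2, hv⟩ := exists_coord T hV hT v0 hv0 hT0
  -- the linear functional which removes the mixed terms
  let c1 := B v1 u1 + B u1 v1
  let c2 := B v1 u2 + B u2 v1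
  let H0 : V →ₗ[K] K := ρ0 • t + c1 • x + c2 • y
  have hH0 : ∀ v, H0 v = ρ0 * t v + c1 * x v + c2 * y v := fun v => rfl
  have hC1 := hC v1
  have hCu1 := hC u1
  have hCu2 := hC u2
  rw [hv1] at hC1
  rw [hu1] at hCu1
  rw [hu2] at hCu2
  have hg : ∀ v, B v v = H0 v ^ 2 + H0 v * T v + (B v1 v1 * (T v) ^ 2 +
      (B u1 u1 + c1 ^ 2) * (x v) ^ 2 + (B u1 u2 + B u2 u1) * x v * y v +
      (B u2 u2 + c2 ^ 2) * (y v) ^ 2) := by
    intro v
    have e : B v v = B (T v • v1 + x v • u1 + y v • u2 + t v • v0)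
        (T v • v1 + x v • u1 + y v • u2 + t v • v0) := by rw [← hv v]
    rw [e, hH0]
    simp only [map_add, LinearMap.add_apply, map_smul, LinearMap.smul_apply, smul_eq_mul]
    simp only [c1, c2]
    linear_combination (t v) ^ 2 * hg0 + (T v * t v) * hC1 + (x v * t v) * hCu1 +
      (y v * t v) * hCu2 - (ρ0 ^ 2 * (t v) ^ 2 + ρ0 * t v * T v
        + (B v1 u1 + B u1 v1) ^ 2 * (x v) ^ 2 + (B v1 u2 + B u2 v1) ^ 2 * (y v) ^ 2
        + ρ0 * t v * ((B v1 u1 + B u1 v1) * x v + (B v1 u2 + B u2 v1) * y v)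
        + (B v1 u1 + B u1 v1) * x v * ((B v1 u2 + B u2 v1) * y v)) * h2
  have hcl : (B u1 u2 + B u2 u1) ≠ 0 → ∃ c : K, B v1 v1 +
      (B u1 u1 + c1 ^ 2) * (B u2 u2 + c2 ^ 2) / (B u1 u2 + B u2 u1) ^ 2 = c ^ 2 + c := by
    intro hβ
    by_contra hcon
    have hq4 := (h1 K 1 (B v1 v1) 1 (B u1 u1 + c1 ^ 2) (B u2 u2 + c2 ^ 2) (B u1 u2 + B u2 u1) h2
      one_ne_zero hβ).2 (by
        intro hh
        apply hcon
        obtain ⟨c, hc⟩ := hh
        refine ⟨c, ?_⟩
        rw [← hc]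
        ring)
    set N := Nat.card {w : Fin 4 → K // 1 * w 0 ^ 2 + 1 * w 0 * w 1 + B v1 v1 * w 1 ^ 2
      + (B u1 u1 + c1 ^ 2) * w 2 ^ 2 + (B u1 u2 + B u2 u1) * w 2 * w 3
      + (B u2 u2 + c2 ^ 2) * w 3 ^ 2 = 0} with hN
    have hq : 2 ≤ Nat.card K := by
      have : Nontrivial K := inferInstance
      exact (Finite.one_lt_card_iff_nontrivial).2 this
    have hlt : N < Nat.card K ^ 3 := by nlinarith
    have hle : Nat.card {z : V × K // z.2 ^ 2 + z.2 * T z.1 + B z.1 z.1 = 0} ≤ N * Nat.card K := by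
      rw [hN, ← Nat.card_prod]
      apply Nat.card_le_card_of_injective (fun z => (⟨![z.1.2 + H0 z.1.1, T z.1.1, x z.1.1,
        y z.1.1], by
          have hz := z.2
          have hgz := hg z.1.1
          rw [hgz] at hz
          simp only [Matrix.cons_val_zero, Matrix.cons_val_one, Matrix.cons_val]
          linear_combination hz + (z.1.2 * H0 z.1.1) * h2⟩, t z.1.1))
      intro z z' hzz
      simp only [Prod.mk.injEq, Subtype.mk.injEq] at hzz
      obtain ⟨hw, ht⟩ := hzz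
      have e0 := congrFun hw 0
      have e1 := congrFun hw 1
      have e2 := congrFun hw 2
      have e3 := congrFun hw 3
      simp only [Matrix.cons_val_zero, Matrix.cons_val_one, Matrix.cons_val] at e0 e1 e2 e3
      have ev : z.1.1 = z'.1.1 := by
        rw [hv z.1.1, hv z'.1.1, e1, e2, e3, ht]
      rw [ev] at e0
      exact Subtype.ext (Prod.ext ev (add_right_cancel e0))
    have : N * Nat.card K < Nat.card K ^ 4 := by
      calc N * Nat.card K < Nat.card K ^ 3 * Nat.card K :=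
            Nat.mul_lt_mul_of_pos_right hlt (by omega)
        _ = Nat.card K ^ 4 := by ring
    omega
  obtain ⟨a1, a2, a3, b1, b2, b3, d1, d2, d3, hrep⟩ := ternary h2 (B v1 v1) (B u1 u1 + c1 ^ 2)
    (B u1 u2 + B u2 u1) (B u2 u2 + c2 ^ 2) hcl
  refine ⟨H0 + (a1 • T + a2 • x + a3 • y), b1 • T + b2 • x + b3 • y, d1 • T + d2 • x + d3 • y,
    fun v => ?_⟩
  rw [hg v, hrep (T v) (x v) (y v)]
  simp only [LinearMap.add_apply, LinearMap.smul_apply, smul_eq_mul]
  linear_combination (-(H0 v * (a1 * T v + a2 * x v + a3 * y v))) * h2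

end Q164.MR2_B1
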