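import Mathlib
import Pool.Agent.Q49.MR2.Stm

set_option autoImplicit false

open Module

namespace Q164.MR2_BC

open Q49.MR Q49.MR2

/-- counting the fibres of the second projection -/
theorem card_fibres {A B : Type} [Finite A] [Fintype B] (P : A × B → Prop) :
    Nat.card {z : A × B // P z} = ∑ b : B, Nat.card {a : A // P (a, b)} := by
  rw [← Nat.card_sigma]
  exact Nat.card_congr
    { toFun := fun z => ⟨z.1.2, ⟨z.1.1, z.2⟩⟩
      invFun := fun z => ⟨(z.2.1, z.1), z.2.2⟩
      left_inv := fun z => rfl
      right_inv := fun z => rfl }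

/-- fibres of a nonzero functional on a plane -/
theorem card_fibre {K V : Type} [Field K] [Finite K] [AddCommGroup V] [Module K V]
    (hV : finrank K V = 2) (f : V →ₗ[K] K) (hf : f ≠ 0) (a : K) :
    Nat.card {v : V // f v = a} = Nat.card K := by
  have : FiniteDimensional K V := FiniteDimensional.of_finrank_pos (by omega)
  have hsurj : Function.Surjective f := LinearMap.surjective hf
  obtain ⟨v0, hv0⟩ := hsurj a
  have e : {v : V // f v = a} ≃ LinearMap.ker f :=
    { toFun := fun v => ⟨v.1 - v0, by rw [LinearMap.mem_ker, map_sub, v.2, hv0, sub_self]⟩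
      invFun := fun v => ⟨v.1 + v0, by rw [map_add, LinearMap.mem_ker.1 v.2, hv0, zero_add]⟩
      left_inv := fun v => by simp
      right_inv := fun v => by simp }
  rw [Nat.card_congr e, Module.natCard_eq_pow_finrank (K := K)]
  have h1 := LinearMap.finrank_range_add_finrank_ker f
  rw [LinearMap.range_eq_top.2 hsurj, finrank_top, finrank_self, hV] at h1
  have h2 : finrank K (LinearMap.ker f) = 1 := by omega
  rw [h2, pow_one]

theorem bc (h1 : S2_KV) (h2 : S2_DIM) (_h3 : S2_TR) (h4 : S2_FX) : S2_BC := by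
  classical
  intro K L _ _ _ _ _ σ h θ m o ho hθ hm
  obtain ⟨hd4, hd2⟩ := h2 K L σ h
  have : Finite (E2 σ) := inferInstance
  have : Fintype K := Fintype.ofFinite K
  have : Fintype (E4 σ) := Fintype.ofFinite _
  have h2L : (2 : L) = 0 := by
    have h2' := congrArg (algebraMap K L) h.two
    rwa [map_ofNat, map_zero] at h2'
  rw [card_fibres (A := E2 σ) (B := E4 σ × K), Fintype.sum_prod_type]
  have hval : ∀ (χ : E2 σ) (w : E4 σ),
      algebraMap K L (BB σ θ m o (χ : L) w w) = gL σ θ m χ w := fun χ w =>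
    (h1 K L σ h θ m o χ ho hθ hm χ.2 w w).2.1
  -- the functional
  have hfun : ∀ w : E4 σ, ∃ f : E2 σ →ₗ[K] K, (w ≠ 0 → f ≠ 0) ∧ ∀ χ : E2 σ,
      BB σ θ m o (χ : L) w w = BB σ θ m o 0 w w + f χ := by
    intro w
    have hw : σ (σ (σ (σ (w : L)))) = w := w.2
    let f : E2 σ →ₗ[K] K :=
      { toFun := fun χ => BB σ θ m o (χ : L) w w - BB σ θ m o 0 w w
        map_add' := by
          intro a b
          apply (algebraMap K L).injective
          have h0 := hval 0 w
          rw [ZeroMemClass.coe_zero] at h0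
          rw [map_add, map_sub, map_sub, map_sub, hval, hval, hval, h0]
          simp only [gL, bL, Submodule.coe_add, map_add, map_zero]
          ring
        map_smul' := by
          intro c a
          apply (algebraMap K L).injective
          have h0 := hval 0 w
          rw [ZeroMemClass.coe_zero] at h0
          rw [RingHom.id_apply, smul_eq_mul, map_mul, map_sub, map_sub, hval, hval, h0]
          simp only [gL, bL, Submodule.coe_smul, Algebra.smul_def, map_mul, AlgEquiv.commutes,
            map_zero]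
          ring }
    refine ⟨f, ?_, fun χ => by simp [f]⟩
    intro hw0 hf
    have hw0' : (w : L) ≠ 0 := fun hh => hw0 (Subtype.ext hh)
    have hfx : ∀ χ : L, σ (σ χ) = χ → χ * (w * σ (σ (w : L))) +
        σ χ * (σ (w : L) * σ (σ (σ (w : L)))) = 0 := by
      intro χ hχ
      have hh : f ⟨χ, hχ⟩ = 0 := by rw [hf]; rfl
      have hh2 := congrArg (algebraMap K L) hh
      change algebraMap K L (BB σ θ m o χ w w - BB σ θ m o 0 w w) = algebraMap K L 0 at hh2
      have h0 := hval 0 w
      rw [ZeroMemClass.coe_zero] at h0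
      have h00 := hval ⟨χ, hχ⟩ w
      rw [map_sub, map_zero, h0] at hh2
      rw [show BB σ θ m o χ w w = BB σ θ m o ((⟨χ, hχ⟩ : E2 σ) : L) w w from rfl, h00] at hh2
      simp only [gL, bL, map_zero] at hh2
      linear_combination hh2
    have hu0 : (w : L) * σ (σ (w : L)) ≠ 0 := mul_ne_zero hw0' (by simpa using hw0')
    have hfix : ∀ χ : L, σ (σ χ) = χ → σ χ = χ := by
      intro χ hχ
      have hu : σ (σ ((w : L) * σ (σ (w : L)))) = (w : L) * σ (σ (w : L)) := by
        rw [map_mul, map_mul, hw, mul_comm]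
      have hh := hfx (χ / (w * σ (σ (w : L)))) (by rw [map_div₀, map_div₀, hu, hχ])
      rw [div_mul_cancel₀ _ hu0, map_div₀, ← map_mul, div_mul_cancel₀] at hh
      · linear_combination hh - χ * h2L
      · rw [map_ne_zero_iff _ σ.injective]
        exact hu0
    have hle : E2 σ ≤ Submodule.span K {(1 : L)} := by
      intro χ hχ
      obtain ⟨c, hc⟩ := h4 K L σ h χ (hfix χ hχ)
      rw [Submodule.mem_span_singleton]
      exact ⟨c, by rw [Algebra.smul_def, mul_one, hc]⟩
    have hfin := Submodule.finrank_mono hle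
    rw [hd2, finrank_span_singleton (one_ne_zero)] at hfin
    omega
  have hrow : ∀ w : E4 σ, ∑ ρ : K, Nat.card {χ : E2 σ //
      ρ ^ 2 + ρ * Q49.MR2.TT σ o w + BB σ θ m o (χ : L) w w = 0} = Nat.card K ^ 2 := by
    intro w
    obtain ⟨f, hf, hfe⟩ := hfun w
    by_cases hw : w = 0
    · subst hw
      have hc : ∀ ρ : K, Nat.card {χ : E2 σ //
          ρ ^ 2 + ρ * Q49.MR2.TT σ o 0 + BB σ θ m o (χ : L) 0 0 = 0} =
          if ρ = 0 then Nat.card K ^ 2 else 0 := by
        intro ρ
        split_ifs with hρ
        · subst hρ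
          have : ∀ χ : E2 σ, (0 : K) ^ 2 + 0 * Q49.MR2.TT σ o 0 + BB σ θ m o (χ : L) 0 0 = 0 := by
            intro χ; simp
          rw [Nat.card_congr (Equiv.subtypeUnivEquiv this), Module.natCard_eq_pow_finrank (K := K),
            hd2]
        · have : IsEmpty {χ : E2 σ //
              ρ ^ 2 + ρ * Q49.MR2.TT σ o 0 + BB σ θ m o (χ : L) 0 0 = 0} := by
            constructor
            rintro ⟨χ, hχ⟩
            simp [hρ] at hχ
          exact Nat.card_of_isEmpty
      rw [Finset.sum_congr rfl fun ρ _ => hc ρ]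
      simp
    · have hc : ∀ ρ : K, Nat.card {χ : E2 σ //
          ρ ^ 2 + ρ * Q49.MR2.TT σ o w + BB σ θ m o (χ : L) w w = 0} = Nat.card K := by
        intro ρ
        rw [← card_fibre hd2 f (hf hw) (-(ρ ^ 2 + ρ * Q49.MR2.TT σ o w + BB σ θ m o 0 w w))]
        apply Nat.card_congr
        apply Equiv.subtypeEquivRight
        intro χ
        rw [hfe χ]
        constructor
        · intro hh; linear_combination hh
        · intro hh; linear_combination hh
      rw [Finset.sum_congr rfl fun ρ _ => hc ρ]
      simp [Nat.card_eq_fintype_card, sq]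
  have hgoal : ∑ w : E4 σ, ∑ ρ : K, Nat.card {χ : E2 σ //
      ρ ^ 2 + ρ * Q49.MR2.TT σ o w + BB σ θ m o (χ : L) w w = 0} = Nat.card K ^ 6 := by
    rw [Finset.sum_congr rfl fun w _ => hrow w, Finset.sum_const, Finset.card_univ, smul_eq_mul,
      ← Nat.card_eq_fintype_card, Module.natCard_eq_pow_finrank (K := K) (V := E4 σ), hd4]
    ring
  exact hgoal

end Q164.MR2_BC
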