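import Mathlib
import Pool.Agent.Q49.MR2.Stm

set_option autoImplicit false

open Module

namespace Q164.MR2_KV

open Q49.MR Q49.MR2

section

variable {K L : Type} [Field K] [Finite K] [Field L] [Finite L] [Algebra K L] {σ : L ≃ₐ[K] L}

theorem two_L (h : Cyc2 σ) : (2 : L) = 0 := by
  have h2 := congrArg (algebraMap K L) h.two
  rwa [map_ofNat, map_zero] at h2

theorem nn4 (h : Cyc2 σ) {θ : L} (hθ : σ (σ (σ (σ θ))) = θ + 1) :
    σ (σ (σ (σ (nn θ)))) = nn θ := by
  have h2 := two_L h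
  simp only [nn, map_add, map_pow, hθ]
  linear_combination (θ + 1) * h2

theorem nu4 (h : Cyc2 σ) {θ m : L} (hθ : σ (σ (σ (σ θ))) = θ + 1)
    (hm : σ (σ (σ (σ m))) = m) : σ (σ (σ (σ (nu σ θ m)))) = nu σ θ m := by
  have h2 := two_L h
  simp only [nu, phi, map_add, map_one, hθ, hm]
  linear_combination h2

theorem tr_fixed (fx : S2_FX) (h : Cyc2 σ) {o : L} (ho : Algebra.trace K L o = 1) {y : L}
    (hy : σ y = y) : algebraMap K L (Algebra.trace K L (o * y)) = y := by
  obtain ⟨c, rfl⟩ := fx K L σ h y hy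
  rw [mul_comm, ← Algebra.smul_def, map_smul, ho, smul_eq_mul, mul_one]

end

theorem kv (h1 : S2_FX) : S2_KV := by
  intro K L _ _ _ _ _ σ h θ m o χ ho hθ hm hχ w w'
  have h2 := two_L h
  have hn := nn4 h hθ
  have hν := nu4 h hθ hm
  have hw : σ (σ (σ (σ (w : L)))) = w := w.2
  have hw' : σ (σ (σ (σ (w' : L)))) = w' := w'.2
  have hfix : ∀ v : L, σ (σ (σ (σ v))) = v → σ (t4 σ v) = t4 σ v := by
    intro v hv
    simp only [t4, map_add, hv]
    ring
  refine ⟨?_, ?_, ?_⟩
  · change algebraMap K L (Algebra.trace K L (o * t4 σ (w : L))) = t4 σ (w : L)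
    exact tr_fixed h1 h ho (hfix _ hw)
  · change algebraMap K L (Algebra.trace K L (o * bL σ θ m χ (w : L) (w : L))) = _
    rw [gL]
    apply tr_fixed h1 h ho
    unfold bL
    generalize nu σ θ m = ν at hν ⊢
    generalize nn θ = n at hn ⊢
    simp only [t4, map_add, map_mul, hw, hn, hν, hχ]
    ring
  · change algebraMap K L (Algebra.trace K L (o * bL σ θ m χ (w : L) (w' : L)) +
      Algebra.trace K L (o * bL σ θ m χ (w' : L) (w : L))) = _
    rw [← map_add, ← mul_add]
    have key : bL σ θ m χ (w : L) (w' : L) + bL σ θ m χ (w' : L) (w : L) =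
        t4 σ (w' * (nu σ θ m * σ w + σ (σ (σ (nu σ θ m))) * σ (σ (σ (w : L))) +
          χ * σ (σ (w : L)))) := by
      unfold bL
      generalize nu σ θ m = ν at hν ⊢
      generalize nn θ = n at hn ⊢
      simp only [t4, map_add, map_mul, hw, hw', hν, hχ]
      linear_combination (n * w * w' + σ n * σ w * σ w' + σ (σ n) * σ (σ w) * σ (σ w') +
        σ (σ (σ n)) * σ (σ (σ w)) * σ (σ (σ w'))) * h2
    rw [key]
    apply tr_fixed h1 h ho
    apply hfix
    simp only [map_add, map_mul, hw, hw', hν, hχ]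

end Q164.MR2_KV
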