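import Pool.Agent.Q88.MT.Stm

set_option autoImplicit false

/-!
Project MT of helper88, job BDD.
-/

open Set Filter Topology

noncomputable section

namespace Pool.Agent.Q164.MT

open Pool.Agent.Q88.MT

/-- a single `W` -/
theorem W_bdd {n : ℕ} (k : Fin n → ℤ) (u : X n → ℂ) (hu : Sq u) :
    Sq (W k u) ∧ nn (W k u) ≤ nn u := by
  classical
  let Y : Set (X n) := {y | ∀ j, 0 ≤ (y j : ℤ) - k j}
  let φ : Y → X n := fun y j => ((y.1 j : ℤ) - k j).toNat
  have hφ : Function.Injective φ := by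
    intro y y' hyy
    apply Subtype.ext
    funext j
    have h1 := congrFun hyy j
    have h2 : 0 ≤ (y.1 j : ℤ) - k j := y.2 j
    have h3 : 0 ≤ (y'.1 j : ℤ) - k j := y'.2 j
    simp only [φ] at h1
    omega
  have hval : ∀ y : Y, ‖W k u y.1‖ ^ 2 = ‖u (φ y)‖ ^ 2 := by
    intro y
    have hy : ∀ j, 0 ≤ (y.1 j : ℤ) - k j := y.2
    unfold W
    rw [if_pos hy]
  have hind : Y.indicator (fun y => ‖W k u y‖ ^ 2) = fun y => ‖W k u y‖ ^ 2 := by
    funext y
    by_cases hy : y ∈ Y
    · rw [Set.indicator_of_mem hy]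
    · rw [Set.indicator_of_notMem hy]
      have hy' : ¬ ∀ j, 0 ≤ (y j : ℤ) - k j := hy
      unfold W
      rw [if_neg hy']
      simp
  have hs1 : Summable (fun y : Y => ‖u (φ y)‖ ^ 2) := Summable.comp_injective hu hφ
  have hs2 : Summable (fun y : Y => ‖W k u y.1‖ ^ 2) := by
    simp only [hval]; exact hs1
  have hs3 : Summable (fun y => ‖W k u y‖ ^ 2) := by
    rw [← hind]
    exact summable_subtype_iff_indicator.1 hs2
  refine ⟨hs3, ?_⟩
  unfold nn
  apply Real.sqrt_le_sqrt
  rw [← hind, ← tsum_subtype Y (fun y => ‖W k u y‖ ^ 2)]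
  simp only [hval]
  exact tsum_comp_le_tsum_of_inj hu (fun a => by positivity) hφ

theorem bdd (h : S_bas) : S_bdd := by
  intro n k u hu
  classical
  obtain ⟨hadd, hmul, _, _⟩ := h n
  have key : ∀ s : Finset (Equiv.Perm (Fin n)),
      Sq (fun y => ∑ π ∈ s, W (fun j => k (π j)) u y) ∧
      nn (fun y => ∑ π ∈ s, W (fun j => k (π j)) u y) ≤ s.card * nn u := by
    intro s
    induction s using Finset.induction_on with
    | empty =>
      simp only [Finset.sum_empty, Finset.card_empty, Nat.cast_zero, zero_mul]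
      refine ⟨?_, ?_⟩
      · unfold Sq; simp
      · unfold nn; simp
    | insert a s ha ih =>
      obtain ⟨h1, h2⟩ := ih
      obtain ⟨h3, h4⟩ := W_bdd (fun j => k (a j)) u hu
      obtain ⟨h5, h6⟩ := hadd _ _ h3 h1
      simp only [Finset.sum_insert ha, Finset.card_insert_of_notMem ha]
      refine ⟨h5, h6.trans ?_⟩
      push_cast
      linarith
  obtain ⟨h1, h2⟩ := key Finset.univ
  obtain ⟨h3, h4⟩ := hmul (1 / (n.factorial : ℂ)) _ h1
  refine ⟨h3, ?_⟩
  change nn (fun y => 1 / (n.factorial : ℂ) * ∑ π : Equiv.Perm (Fin n), W (fun j => k (π j)) u y) ≤ _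
  rw [h4]
  have hn : (0 : ℝ) < n.factorial := by exact_mod_cast n.factorial_pos
  rw [Finset.card_univ, Fintype.card_perm, Fintype.card_fin] at h2
  rw [norm_div, norm_one, Complex.norm_natCast]
  calc 1 / (n.factorial : ℝ) * nn (fun y => ∑ π : Equiv.Perm (Fin n), W (fun j => k (π j)) u y)
      ≤ 1 / (n.factorial : ℝ) * (n.factorial * nn u) :=
        mul_le_mul_of_nonneg_left h2 (by positivity)
    _ = nn u := by field_simp

end Pool.Agent.Q164.MT
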