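import Pool.Agent.Q88.MT.Stm

set_option autoImplicit false

/-!
Project MT of helper88, job INV.
-/

open Set Filter Topology

noncomputable section

namespace Pool.Agent.Q164.MT

open Pool.Agent.Q88.MT

theorem W_perm {n : ℕ} (k : Fin n → ℤ) (b : Bool) (u : X n → ℂ)
    (hu : ∀ (π : Equiv.Perm (Fin n)) (x : X n), u (fun j => x (π j)) = chi b π * u x)
    (σ : Equiv.Perm (Fin n)) (y : X n) :
    W k u (fun j => y (σ j)) = chi b σ * W (fun j => k (σ⁻¹ j)) u y := by
  classical
  unfold W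
  have hc : (∀ j, 0 ≤ (y (σ j) : ℤ) - k j) ↔ ∀ j, 0 ≤ (y j : ℤ) - k (σ⁻¹ j) := by
    constructor
    · intro h j
      have := h (σ⁻¹ j)
      rwa [show σ (σ⁻¹ j) = j from Equiv.apply_symm_apply σ j] at this
    · intro h j
      have := h (σ j)
      rwa [show σ⁻¹ (σ j) = j from Equiv.symm_apply_apply σ j] at this
  by_cases h : ∀ j, 0 ≤ (y (σ j) : ℤ) - k j
  · rw [if_pos h, if_pos (hc.1 h)]
    rw [← hu σ (fun j => ((y j : ℤ) - k (σ⁻¹ j)).toNat)]
    congr 1
    funext j
    rw [show σ⁻¹ (σ j) = j from Equiv.symm_apply_apply σ j]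
  · rw [if_neg h, if_neg (fun h' => h (hc.2 h')), mul_zero]

theorem inv (h : S_bas) (h1 : S_bdd) : S_inv := by
  intro n k b
  obtain ⟨hadd, hmul, _, _⟩ := h n
  refine ⟨?_, ?_, ?_⟩
  · rintro u ⟨hu, hs⟩
    refine ⟨(h1 n k u hu).1, ?_⟩
    intro σ y
    unfold T
    simp only [W_perm _ b u hs]
    rw [← Finset.mul_sum, mul_left_comm]
    congr 2
    exact Equiv.sum_comp (Equiv.mulRight σ⁻¹) (fun π => W (fun j => k (π j)) u y)
  · intro u v c
    funext y
    unfold T
    have e : ∀ π : Equiv.Perm (Fin n), W (fun j => k (π j)) (fun x => u x + c * v x) y =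
        W (fun j => k (π j)) u y + c * W (fun j => k (π j)) v y := by
      intro π
      unfold W
      split_ifs
      · rfl
      · simp
    simp only [e, Finset.sum_add_distrib, ← Finset.mul_sum]
    ring
  · rintro u ⟨hu, hs⟩ v ⟨hv, ht⟩ c
    refine ⟨(hadd u _ hu (hmul c v hv).1).1, ?_⟩
    intro π x
    simp only [hs, ht]
    ring

end Pool.Agent.Q164.MT
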