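import Pool.Agent.Q88.PS.Stm

/-!
# Project PS, job SEP: separation of the cylinders
-/

set_option autoImplicit false

namespace Pool.Agent.Q164.PS

open Pool.Agent.Q88.PS Set

lemma digit_ne : ∀ d d' : D, d ≠ d' → da d ≠ da d' ∨ db d ≠ db d' := by decide

lemma psi_zero (d : D) (x : E2) : psi d x 0 = (1 / 8 : ℝ) * (x 0 + da d) := by
  simp only [psi, dv, PiLp.smul_apply, PiLp.add_apply, smul_eq_mul]
  simp [mul_add]

lemma psi_one (d : D) (x : E2) : psi d x 1 = (1 / 8 : ℝ) * (x 1 + db d) := by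
  simp only [psi, dv, PiLp.smul_apply, PiLp.add_apply, smul_eq_mul]
  simp [mul_add]

lemma aux {n m : ℕ} (h : n ≠ m) {s t : ℝ} (hs : s ∈ Icc (0 : ℝ) (5 / 7)) (ht : t ∈ Icc (0 : ℝ) (5 / 7)) :
    1 / 28 ≤ |(1 / 8 : ℝ) * (s + n) - (1 / 8 : ℝ) * (t + m)| := by
  obtain ⟨hs0, hs1⟩ := hs
  obtain ⟨ht0, ht1⟩ := ht
  rw [le_abs]
  rcases lt_or_gt_of_ne h with h | h
  · right
    have : (n : ℝ) + 1 ≤ m := by exact_mod_cast h
    linarith
  · left
    have : (m : ℝ) + 1 ≤ n := by exact_mod_cast h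
    linarith

/-- **SEP** -/
theorem sep (h : S_base) : S_sep := by
  intro d d' hd x hx y hy
  obtain ⟨-, -, -, hb⟩ := h
  obtain ⟨hx0, hx1⟩ := hb x hx
  obtain ⟨hy0, hy1⟩ := hb y hy
  have hsub : Icc (0 : ℝ) (3 / 7) ⊆ Icc (0 : ℝ) (5 / 7) := Icc_subset_Icc_right (by norm_num)
  rw [dist_eq_norm]
  rcases digit_ne d d' hd with h1 | h1
  · refine le_trans ?_ (PiLp.norm_apply_le (psi d x - psi d' y) 0)
    rw [PiLp.sub_apply, psi_zero, psi_zero, Real.norm_eq_abs]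
    exact aux h1 (hsub hx0) (hsub hy0)
  · refine le_trans ?_ (PiLp.norm_apply_le (psi d x - psi d' y) 1)
    rw [PiLp.sub_apply, psi_one, psi_one, Real.norm_eq_abs]
    exact aux h1 hx1 hy1

end Pool.Agent.Q164.PS
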