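import Pool.Agent.Q88.PS.Stm

/-!
# Project PS, job SEPW: separation of the cylinders of incomparable words
-/

set_option autoImplicit false

namespace Pool.Agent.Q164.PS

open Pool.Agent.Q88.PS Set

lemma psi_mem (h : S_base) (d : D) {x : E2} (hx : x ∈ KK) : psi d x ∈ KK := by
  have h1 : psi d x ∈ ⋃ d : D, psi d '' KK := mem_iUnion.2 ⟨d, x, hx, rfl⟩
  rw [← h.2.2.1] at h1
  exact h1

lemma psw_mem (h : S_base) (w : List D) {x : E2} (hx : x ∈ KK) : psw w x ∈ KK := by
  induction w with
  | nil => exact hx
  | cons d w ih => exact psi_mem h d ih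

lemma dist_psi (d : D) (x y : E2) : dist (psi d x) (psi d y) = 1 / 8 * dist x y := by
  unfold psi
  rw [dist_smul₀, dist_add_right, Real.norm_of_nonneg (by norm_num)]

/-- **SEPW** -/
theorem sepw (h : S_base) (h1 : S_sep) : S_sepw := by
  intro v
  induction v with
  | nil =>
    intro v' hv
    exact absurd List.nil_prefix hv
  | cons d w ih =>
    intro v' hv hv' x hx y hy
    cases v' with
    | nil => exact absurd List.nil_prefix hv'
    | cons d' w' =>
      by_cases hd : d = d'
      · subst hd
        have h2 : ¬ w <+: w' := fun hw => hv (List.cons_prefix_cons.2 ⟨rfl, hw⟩)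
        have h3 : ¬ w' <+: w := fun hw => hv' (List.cons_prefix_cons.2 ⟨rfl, hw⟩)
        have h4 := ih w' h2 h3 x hx y hy
        show _ ≤ dist (psi d (psw w x)) (psi d (psw w' y))
        rw [dist_psi, List.length_cons, List.length_cons, pow_succ, pow_succ,
          ← max_mul_of_nonneg _ _ (show (0 : ℝ) ≤ 1 / 8 by norm_num)]
        linarith
      · have h2 := h1 d d' hd _ (psw_mem h w hx) _ (psw_mem h w' hy)
        refine le_trans ?_ h2
        have h3 : max ((1 / 8 : ℝ) ^ (d :: w).length) ((1 / 8 : ℝ) ^ (d' :: w').length) ≤ 1 / 8 := by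
          refine max_le ?_ ?_ <;>
          · rw [List.length_cons, pow_succ]
            have := pow_le_one₀ (n := w.length) (show (0 : ℝ) ≤ 1 / 8 by norm_num) (by norm_num)
            have := pow_le_one₀ (n := w'.length) (show (0 : ℝ) ≤ 1 / 8 by norm_num) (by norm_num)
            linarith
        linarith

end Pool.Agent.Q164.PS
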