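import Mathlib
import Pool.Agent.Q2.TN.Stm

set_option autoImplicit false

namespace Q164.TN_A4

open Q2.TN Subgroup

theorem a4 : S_A4 := by
  intro p hp G _ _ P M U hP hPM hM hUn hUp hUM hC
  have : Fact p.Prime := ⟨hp⟩
  obtain ⟨N, hN, hcop, k, hk⟩ := hM
  -- `N` is trivial
  have hNbot : N = ⊥ := by
    rw [eq_bot_iff]
    intro n hn
    rw [mem_bot]
    have hUMn : (U.subgroupOf M).Normal := hUn.subgroupOf M
    have hdisj : Disjoint N (U.subgroupOf M) := by
      rw [disjoint_iff_inf_le]
      rintro x ⟨hx1, hx2⟩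
      rw [mem_bot]
      have h1 : orderOf x ∣ Nat.card N := Subgroup.orderOf_dvd_natCard N hx1
      obtain ⟨j, hj⟩ := hUp ⟨x.1, hx2⟩
      have h2 : x ^ p ^ j = 1 := by
        apply Subtype.ext
        have := congrArg Subtype.val hj
        simpa using this
      have h3 : orderOf x ∣ p ^ j := orderOf_dvd_of_pow_eq_one h2
      have h4 : orderOf x ∣ 1 := by
        have : Nat.gcd (Nat.card N) (p ^ j) = 1 := Nat.Coprime.pow_right j hcop
        rw [← this]
        exact Nat.dvd_gcd h1 h3
      exact orderOf_eq_one_iff.1 (Nat.dvd_one.1 h4)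
    have hcent : (n : G) ∈ centralizer (U : Set G) := by
      rw [mem_centralizer_iff]
      intro u hu
      have hcomm := commute_of_normal_of_disjoint N (U.subgroupOf M) hN hUMn hdisj n ⟨u, hUM hu⟩ hn
        (by rw [mem_subgroupOf]; exact hu)
      have := congrArg Subtype.val hcomm.eq
      simpa using this.symm
    have hnU : (n : G) ∈ U := hC hcent
    have : n ∈ N ⊓ U.subgroupOf M := mem_inf.2 ⟨hn, mem_subgroupOf.2 hnU⟩
    rw [disjoint_iff.1 hdisj] at this
    exact mem_bot.1 this
  rw [hNbot, index_bot] at hk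
  have h1 : P.relIndex M ∣ p ^ k := by
    rw [← hk]
    exact index_dvd_card _
  have h2 : P.relIndex M ∣ P.index := by
    rw [← relIndex_mul_index hPM]
    exact dvd_mul_right _ _
  obtain ⟨j, _, hj⟩ := (Nat.dvd_prime_pow hp).1 h1
  have hj0 : j = 0 := by
    by_contra hne
    apply hP.2
    refine dvd_trans ?_ h2
    rw [hj]
    exact dvd_pow_self p hne
  rw [hj0, pow_zero] at hj
  exact le_antisymm (relIndex_eq_one.1 hj) hPM

end Q164.TN_A4
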